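import Pool.Agent.N44.FA.Path

/-!
# The greedy lemma from the path lemma (project FA)
-/

set_option autoImplicit false
set_option linter.unusedSectionVars false

namespace Pool.Agent.N935.FA

open Pool.Agent.N44.NS Pool.Agent.N44.FA

section

variable {V : Type} [AddCommGroup V] [Module (ZMod 2) V]

theorem range_inv (g : V ≃ₗ[ZMod 2] V) :
    LinearMap.range (((g⁻¹ : V ≃ₗ[ZMod 2] V) : V →ₗ[ZMod 2] V) - LinearMap.id) =
    LinearMap.range ((g : V →ₗ[ZMod 2] V) - LinearMap.id) := by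
  have h1 : ∀ x, g (g⁻¹ x) = x := fun x => g.apply_symm_apply x
  have h2 : ∀ x, g⁻¹ (g x) = x := fun x => g.symm_apply_apply x
  ext y
  simp only [LinearMap.mem_range, LinearMap.sub_apply, LinearMap.id_apply, LinearEquiv.coe_coe]
  constructor
  · rintro ⟨x, rfl⟩
    refine ⟨-(g⁻¹ x), ?_⟩
    rw [map_neg, h1]
    abel
  · rintro ⟨x, rfl⟩
    refine ⟨-(g x), ?_⟩
    rw [map_neg, h2]
    abel

theorem rk_inv (g : V ≃ₗ[ZMod 2] V) : rk g⁻¹ = rk g := by
  unfold rk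
  rw [range_inv]

/-- the value of a word -/
def wd (w : V ≃ₗ[ZMod 2] V) (W : (V ≃ₗ[ZMod 2] V) × List (ℤˣ × (V ≃ₗ[ZMod 2] V))) :
    V ≃ₗ[ZMod 2] V :=
  W.1 * (W.2.map fun x => w ^ (x.1 : ℤ) * x.2).prod

/-- the letters of the inverse -/
def il (L : List (ℤˣ × (V ≃ₗ[ZMod 2] V))) : List (ℤˣ × (V ≃ₗ[ZMod 2] V)) :=
  L.map fun x => (-x.1, x.2⁻¹)

theorem act_il (w : V ≃ₗ[ZMod 2] V) : ∀ (L : List (ℤˣ × (V ≃ₗ[ZMod 2] V))) (c : V),
    (L.map fun x => w ^ (x.1 : ℤ) * x.2).prod⁻¹ c = act w c (il L) := by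
  intro L
  induction L with
  | nil =>
    intro c
    simp [il, act]
  | cons a L ih =>
    obtain ⟨e, g⟩ := a
    intro c
    have h1 : act w c (il ((e, g) :: L)) = act w (g⁻¹ ((w ^ ((-e : ℤˣ) : ℤ)) c)) (il L) := rfl
    rw [h1, ← ih, List.map_cons, List.prod_cons, mul_inv_rev, mul_inv_rev, Units.val_neg, zpow_neg]
    rfl

theorem wd_inv (w : V ≃ₗ[ZMod 2] V) (W : (V ≃ₗ[ZMod 2] V) × List (ℤˣ × (V ≃ₗ[ZMod 2] V)))
    (v : V) : (wd w W)⁻¹ v = act w (W.1⁻¹ v) (il W.2) := by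
  rw [← act_il]
  unfold wd
  rw [mul_inv_rev]
  rfl

theorem chain_il {C : ℕ} {L : List (ℤˣ × (V ≃ₗ[ZMod 2] V))}
    (h : L.IsChain (fun a b => a.1 ≠ b.1 → C ≤ rk a.2)) :
    (il L).IsChain (fun a b => a.1 ≠ b.1 → C ≤ rk a.2) := by
  unfold il
  rw [List.isChain_map]
  refine h.imp ?_
  intro a b hab hne
  simp only at hne ⊢
  rw [rk_inv]
  exact hab fun h => hne (by rw [h])

theorem finrank_side (w : V ≃ₗ[ZMod 2] V) (D : Submodule (ZMod 2) V) (e : ℤˣ) :
    Module.finrank (ZMod 2) (side w D e) = Module.finrank (ZMod 2) D := by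
  by_cases h : e = 1
  · have : side w D e = D := if_pos h
    rw [this]
  · have : side w D e = D.map (w : V →ₗ[ZMod 2] V) := if_neg h
    rw [this]
    exact LinearEquiv.finrank_map_eq w D

theorem finrank_span_one (v : V) : Module.finrank (ZMod 2) (Submodule.span (ZMod 2) {v}) ≤ 1 :=
  (finrank_span_le_card (R := ZMod 2) ({v} : Set V)).trans (by simp)

variable [Finite V]

theorem exists_notMem (D : Submodule (ZMod 2) V)
    (h : Module.finrank (ZMod 2) D < Module.finrank (ZMod 2) V) : ∃ c, c ∉ D := by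
  by_contra hcon
  push Not at hcon
  have : D = ⊤ := by
    rw [eq_top_iff]
    intro x _
    exact hcon x
  rw [this, finrank_top] at h
  exact lt_irrefl _ h

theorem runs (hP : S_PATH) {k C : ℕ} (hCV : C ≤ Module.finrank (ZMod 2) V)
    {W : (V ≃ₗ[ZMod 2] V) × List (ℤˣ × (V ≃ₗ[ZMod 2] V))} (hW : W.2 ≠ [])
    (hlen : W.2.length ≤ k) (hch : W.2.IsChain (fun a b => a.1 ≠ b.1 → C ≤ rk a.2))
    (w0 : V ≃ₗ[ZMod 2] V) (D : Submodule (ZMod 2) V) : ∀ j : ℕ, j ≤ k →
      Module.finrank (ZMod 2) D + j * k + k + 3 ≤ C →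
      ∃ (w1 : V ≃ₗ[ZMod 2] V) (D1 E : Submodule (ZMod 2) V), D ≤ D1 ∧ (∀ z ∈ D, w1 z = w0 z) ∧
        Module.finrank (ZMod 2) D1 ≤ Module.finrank (ZMod 2) D + j * k ∧
        Module.finrank (ZMod 2) E = j ∧
        ∀ w : V ≃ₗ[ZMod 2] V, (∀ z ∈ D1, w z = w1 z) → E ≤ LinearMap.range
          ((((wd w W)⁻¹ : V ≃ₗ[ZMod 2] V) : V →ₗ[ZMod 2] V) - LinearMap.id) := by
  intro j
  induction j with
  | zero =>
    intro _ _
    refine ⟨w0, D, ⊥, le_rfl, fun _ _ => rfl, by omega, by simp, fun w _ => bot_le⟩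
  | succ j ih =>
    intro hj hC
    have hjk : (j + 1) * k = j * k + k := by ring
    obtain ⟨w1, D1, E, hD, hw1, hD1, hE, hEr⟩ := ih (by omega) (by omega)
    have hlil : (il W.2).length = W.2.length := List.length_map _
    obtain ⟨c, hc⟩ : ∃ c, ∀ a ∈ (il W.2).head?, c ∉ side w1 D1 a.1 := by
      rcases hL : il W.2 with _ | ⟨a, L⟩
      · exact ⟨0, by simp⟩
      · obtain ⟨c, hc⟩ := exists_notMem (side w1 D1 a.1) (by rw [finrank_side]; omega)
        refine ⟨c, fun b hb => ?_⟩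
        simp only [List.head?_cons, Option.mem_def, Option.some.injEq] at hb
        rw [← hb]
        exact hc
    set v : V := W.1 c with hv
    have hvc : W.1⁻¹ v = c := W.1.symm_apply_apply c
    have hU : Module.finrank (ZMod 2) ↥(E ⊔ Submodule.span (ZMod 2) {v}) ≤ k := by
      have h1 := Submodule.finrank_add_le_finrank_add_finrank E (Submodule.span (ZMod 2) {v})
      have h2 := finrank_span_one v
      omega
    obtain ⟨w2, D2, y, hD2, hw2, hD2r, hy, hact⟩ := hP V k C (il W.2)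
      (by intro h; exact hW (List.map_eq_nil_iff.1 h)) hCV (chain_il hch) w1 D1 c
      (E ⊔ Submodule.span (ZMod 2) {v}) hU (by rw [hlil]; omega) hc
    have hδ : y - v ∉ E := by
      intro h
      apply hy
      have h3 : y = (y - v) + v := by abel
      rw [h3]
      exact Submodule.add_mem_sup h (Submodule.mem_span_singleton_self v)
    refine ⟨w2, D2, E ⊔ Submodule.span (ZMod 2) {y - v}, hD.trans hD2,
      fun z hz => (hw2 z (hD hz)).trans (hw1 z hz), by omega, ?_, fun w hw => ?_⟩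
    · have h1 := Submodule.finrank_add_le_finrank_add_finrank E
        (Submodule.span (ZMod 2) {y - v})
      have h2 := finrank_span_one (y - v)
      have h3 : E < E ⊔ Submodule.span (ZMod 2) {y - v} := by
        refine lt_of_le_of_ne le_sup_left fun h => hδ ?_
        rw [h]
        exact Submodule.mem_sup_right (Submodule.mem_span_singleton_self _)
      have h4 := Submodule.finrank_lt_finrank_of_lt h3
      omega
    · refine sup_le (hEr w fun z hz => (hw z (hD2 hz)).trans (hw2 z hz)) ?_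
      rw [Submodule.span_singleton_le_iff_mem, LinearMap.mem_range]
      refine ⟨v, ?_⟩
      rw [LinearMap.sub_apply, LinearMap.id_apply, LinearEquiv.coe_coe, wd_inv, hvc, hact w hw]

theorem words (hP : S_PATH) {k C : ℕ} (hCV : C ≤ Module.finrank (ZMod 2) V) :
    ∀ (Ws : List ((V ≃ₗ[ZMod 2] V) × List (ℤˣ × (V ≃ₗ[ZMod 2] V)))),
    (∀ W ∈ Ws, W.2 ≠ [] ∧ W.2.length ≤ k ∧ W.2.IsChain (fun a b => a.1 ≠ b.1 → C ≤ rk a.2)) →
    ∀ (w0 : V ≃ₗ[ZMod 2] V) (D : Submodule (ZMod 2) V),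
      Module.finrank (ZMod 2) D + Ws.length * (k * k) + k + 3 ≤ C →
      ∃ (w1 : V ≃ₗ[ZMod 2] V) (D1 : Submodule (ZMod 2) V), D ≤ D1 ∧ (∀ z ∈ D, w1 z = w0 z) ∧
        ∀ w : V ≃ₗ[ZMod 2] V, (∀ z ∈ D1, w z = w1 z) → ∀ W ∈ Ws, k ≤ rk (wd w W) := by
  intro Ws
  induction Ws with
  | nil =>
    intro _ w0 D _
    exact ⟨w0, D, le_rfl, fun _ _ => rfl, fun w _ W hW => absurd hW (by simp)⟩
  | cons W Ws ih =>
    intro hWs w0 D hC
    have hl : (W :: Ws).length * (k * k) = Ws.length * (k * k) + k * k := by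
      rw [List.length_cons]; ring
    obtain ⟨hW1, hW2, hW3⟩ := hWs W (by simp)
    obtain ⟨w1, D1, E, hD, hw1, hD1, hE, hEr⟩ := runs hP hCV hW1 hW2 hW3 w0 D k le_rfl (by omega)
    obtain ⟨w2, D2, hD2, hw2, hr⟩ := ih (fun W' hW' => hWs W' (by simp [hW'])) w1 D1 (by omega)
    refine ⟨w2, D2, hD.trans hD2, fun z hz => (hw2 z (hD hz)).trans (hw1 z hz),
      fun w hw W' hW' => ?_⟩
    rcases List.mem_cons.1 hW' with rfl | hW'
    · rw [← rk_inv, ← hE]
      exact Submodule.finrank_mono (hEr w fun z hz => (hw z (hD2 hz)).trans (hw2 z hz))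
    · exact hr w hw W' hW'

end

theorem t_greedy : S_PATH → S_GREEDY := by
  intro hP k
  refine ⟨k * k * k + 2 * k + 10, ?_⟩
  intro V _ _ _ hCV Ws hlen hWs
  obtain ⟨w1, D1, -, -, h⟩ := words hP hCV Ws hWs 1 ⊥ (by
    rw [finrank_bot]
    have h1 : Ws.length * (k * k) ≤ k * k * k := by
      rw [mul_assoc]
      exact Nat.mul_le_mul_right _ hlen
    omega)
  exact ⟨w1, fun W hW => h w1 (fun _ _ => rfl) W hW⟩

end Pool.Agent.N935.FA
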